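import Pool.Agent.R931.BD.Endo

/-!
# Rank at one prime: the Tate tensors at all primes without new endomorphisms
-/

set_option autoImplicit false
set_option linter.unusedSectionVars false
set_option linter.unusedVariables false

namespace Pool.Agent.R931.BD

open NumberField IsDedekindDomain Module Polynomial TensorProduct Pool.Agent.TH118.SG
  Pool.Agent.Y114.MU Pool.Agent.Y114.TF Pool.Agent.Y114.GF Pool.Agent.H204R3.GP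
  Pool.Agent.Y114.RM Pool.Agent.R931.IR

section main

variable {Γ : Type} [Group Γ] [TopologicalSpace Γ] [IsTopologicalGroup Γ] [CompactSpace Γ]

theorem tuple (s : Gal(AlgebraicClosure ℚ/ℚ) →* Γ) (hs : Continuous s)
    {ι : Type} [Fintype ι] [DecidableEq ι] {n : ι → ℕ} (w : ι → ℤ) (c : ℕ)
    (S : Set (HeightOneSpectrum (𝓞 ℚ))) (hS : S.Finite)
    (P : HeightOneSpectrum (𝓞 ℚ) → ι → ℚ[X])
    (ℓ₀ : ℕ) [hℓ₀ : Fact ℓ₀.Prime] (ρ₀ : Reps Γ n ℓ₀) (hρ₀ : Conts ρ₀)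
    (hP₀ : ∀ v ∉ S, ¬ Above v ℓ₀ → ∀ i, GoodReduction (restrictTo ρ₀ s) i (w i) v (P v i) ∧
      IntegralRoots c v (P v i))
    (r : ℕ) (hr : ∃ σ, IndependentEigenvalues ρ₀ (s σ) r)
    (ℓ : ℕ) [hℓ : Fact ℓ.Prime] (ρ : Reps Γ n ℓ) (hρ : Conts ρ)
    (hP : ∀ v ∉ S, ¬ Above v ℓ → ∀ i, GoodReduction (restrictTo ρ s) i (w i) v (P v i))
    (𝔤 : Submodule ℚ_[ℓ] (End ℚ_[ℓ] (∀ i, Fin (n i) → ℚ_[ℓ]))) (h𝔤 : IsMotivic ρ 𝔤)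
    (hrank : RankAtMost 𝔤 r) :
    ∃ (L : Submodule ℚ_[ℓ] (End ℚ_[ℓ] (∀ i, Fin (n i) → ℚ_[ℓ])))
      (_ : Algebra ℚ_[ℓ] ℂ) (t : Submodule ℂ (End ℂ (ℂ ⊗[ℚ_[ℓ]] (∀ i, Fin (n i) → ℚ_[ℓ])))),
      FiniteIndexSemisimple (sumRep ρ) ∧
      (∀ X, X ∈ L ↔ ∀ (m : ℕ) (φ : Tensor ℚ_[ℓ] (∀ i, Fin (n i) → ℚ_[ℓ]) m),
        TateTensor (sumRep ρ) φ → KillsTensor X φ) ∧ IsLie L ∧ L ≤ 𝔤 ∧ NonDeg L ∧
      (∀ x ∈ L, r ≤ finrank ℚ_[ℓ] (cen L x)) ∧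
      (∀ (τ : Γ) (d : ℕ), 2 ≤ d → (sumRep ρ τ - 1) ^ d = 0 →
        lgA d (sumRep ρ τ - 1) 1 ∈ L) ∧
      t ≤ bcS ℂ L ∧ (∀ a ∈ t, ⨆ μ, End.eigenspace a μ = ⊤) ∧
      (∀ a ∈ t, ∀ b ∈ t, a * b = b * a) ∧
      (∀ x ∈ bcS ℂ 𝔤, (∀ a ∈ t, a * x = x * a) → x ∈ t) := by
  obtain ⟨σ, hσ⟩ := hr
  have hcont : Conts (restrictTo ρ₀ s) := fun i => (hρ₀ i).comp hs
  obtain ⟨v₀, hv₀, hind, -⟩ := exists_indep (restrictTo ρ₀ s) hcont w c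
    (S ∪ {v | Above v ℓ₀} ∪ {v | Above v ℓ})
    ((hS.union (finite_above ℓ₀ hℓ₀.out)).union (finite_above ℓ hℓ.out)) P
    (fun v hv i => hP₀ v (fun h => hv (Or.inl (Or.inl h))) (fun h => hv (Or.inl (Or.inr h))) i)
    σ r hσ Set.univ isOpen_univ (Set.mem_univ _)
  obtain ⟨p₀, hp₀, hpv₀⟩ := exists_prime v₀
  let T : Set ℕ := {p | p.Prime ∧ p ≠ ℓ ∧ ∀ v, Above v p → v ∉ S}
  have hp₀ℓ : p₀ ≠ ℓ := by
    rintro rfl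
    exact hv₀ (Or.inr hpv₀)
  have hp₀T : p₀ ∈ T := ⟨hp₀, hp₀ℓ, fun v hv h => hv₀ (Or.inl (Or.inl (by
    rwa [(above_iff hp₀ hpv₀ v).1 hv] at h)))⟩
  have hTinf : T.Infinite := by
    have h1 : ({p : ℕ | p.Prime} \ ({ℓ} ∪ {p : ℕ | p.Prime ∧ ∃ v ∈ S, (p : 𝓞 ℚ) ∈ v.asIdeal})).Infinite :=
      Nat.infinite_setOf_prime.sdiff ((Set.finite_singleton ℓ).union (finite_below S hS))
    refine h1.mono ?_
    rintro p ⟨hp, hp'⟩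
    exact ⟨hp, fun h => hp' (Or.inl h), fun v hv hvS => hp' (Or.inr ⟨hp, v, hvS, hv⟩)⟩
  have hT3 : 3 ≤ T.encard := by
    rw [hTinf.encard_eq]
    exact le_top
  exact semi_main' ρ s hs inputs inputs2 inputs3.rank hρ 𝔤 h𝔤 P T
    hT3 (fun p hp => ⟨hp.1, hp.2.1, fun v hv => unramified hp.1 hv⟩)
    (fun p hp v hv => goodPlace_of (restrictTo ρ s)
      (hP v (hp.2.2 v hv) (notAbove_of_ne hp.1 hℓ.out hp.2.1 hv)))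
    hp₀T (independentPlaces_of_one P (fun v => above_iff hp₀ hpv₀ v)) hpv₀ r
    (independentRoots_range hind) hrank

/-- Every endomorphism of the direct sum which commutes with a subgroup of finite index of `Γ`
commutes with the elements of `𝔤`. -/
def EndomorphismsFixed {ι : Type} {n : ι → ℕ} {ℓ : ℕ} [Fact ℓ.Prime] (ρ : Reps Γ n ℓ)
    (𝔤 : EndSpace n ℓ) : Prop := EndosFixed (sumRep ρ) 𝔤

theorem main_endo (s : Gal(AlgebraicClosure ℚ/ℚ) →* Γ) (hs : Continuous s)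
    {ι : Type} [Fintype ι] [DecidableEq ι] {n : ι → ℕ} (w : ι → ℤ) (c : ℕ)
    (S : Set (HeightOneSpectrum (𝓞 ℚ))) (hS : S.Finite)
    (P : HeightOneSpectrum (𝓞 ℚ) → ι → ℚ[X])
    (ℓ₀ : ℕ) [hℓ₀ : Fact ℓ₀.Prime] (ρ₀ : Reps Γ n ℓ₀) (hρ₀ : Conts ρ₀)
    (hP₀ : ∀ v ∉ S, ¬ Above v ℓ₀ → ∀ i, GoodReduction (restrictTo ρ₀ s) i (w i) v (P v i) ∧
      IntegralRoots c v (P v i))
    (r : ℕ) (hr : ∃ σ, IndependentEigenvalues ρ₀ (s σ) r)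
    (ℓ : ℕ) [hℓ : Fact ℓ.Prime] (ρ : Reps Γ n ℓ) (hρ : Conts ρ)
    (hP : ∀ v ∉ S, ¬ Above v ℓ → ∀ i, GoodReduction (restrictTo ρ s) i (w i) v (P v i))
    (𝔤 : EndSpace n ℓ) (h𝔤 : Motivic ρ 𝔤) (hrank : RankLE 𝔤 r) :
    EndomorphismsFixed ρ 𝔤 ↔ TateTensorsOf ρ 𝔤 := by
  constructor
  · intro hend
    obtain ⟨L, alg, t, hss, hLT, hLie, hLG, hND, -, -, htL, hdiag, hcomm, hcen⟩ :=
      tuple s hs w c S hS P ℓ₀ ρ₀ hρ₀ hP₀ r hr ℓ ρ hρ hP 𝔤 h𝔤 hrank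
    have hfull : L = 𝔤 := full_of_endos ρ hρ 𝔤 h𝔤 alg hss hLT hLie hLG hND htL hdiag hcomm hcen hend
    intro m φ
    exact ⟨fun hφ X hX => (hLT X).1 (hfull ▸ hX) m φ hφ, IsMotivic.tate h𝔤 m φ⟩
  · exact endos_of_full (sumRep ρ) 𝔤

end main

end Pool.Agent.R931.BD
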