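import Pool.Agent.R931.BD.Block
import Pool.Agent.R931.BD.Place

/-!
# The Lie algebra of the Tate tensors is full if there are no new endomorphisms of the summands
-/

set_option autoImplicit false
set_option linter.unusedSectionVars false
set_option linter.unusedVariables false

namespace Pool.Agent.R931.BD

open NumberField IsDedekindDomain Module Polynomial TensorProduct Pool.Agent.TH118.SG
  Pool.Agent.Y114.MU Pool.Agent.Y114.TF Pool.Agent.Y114.GF Pool.Agent.H204R3.GP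
  Pool.Agent.Y114.RM Pool.Agent.R931.IR

section loc

variable {k : Type} [Field k] [CharZero k] [Algebra k ℂ] {ι : Type} [Fintype ι] [DecidableEq ι]
  {V : ι → Type} [∀ i, AddCommGroup (V i)] [∀ i, Module k (V i)] [∀ i, FiniteDimensional k (V i)]

/-- the projection to the `i`-th summand, as an endomorphism of the sum -/
noncomputable def pr (i : ι) : End k (∀ i, V i) := (LinearMap.single k V i) ∘ₗ (LinearMap.proj i)

theorem pr_apply (i : ι) (x : ∀ i, V i) : pr (k := k) i x = Pi.single i (x i) := rfl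

theorem pr_idem (i : ι) : pr (k := k) (V := V) i * pr i = pr i := by
  refine LinearMap.ext fun x => ?_
  rw [Module.End.mul_apply, pr_apply, pr_apply, Pi.single_eq_same]

theorem sum_pr : ∑ i, pr (k := k) (V := V) i = 1 := by
  refine LinearMap.ext fun x => ?_
  rw [LinearMap.sum_apply]
  simp_rw [pr_apply]
  exact Finset.univ_sum_single x

theorem pr_comm {X : End k (∀ i, V i)} (hX : ∀ x i, X x i = X (Pi.single i (x i)) i) (i : ι) :
    X * pr i = pr i * X := by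
  refine LinearMap.ext fun x => funext fun j => ?_
  rw [Module.End.mul_apply, Module.End.mul_apply, pr_apply, pr_apply, hX]
  by_cases h : j = i
  · subst h
    rw [Pi.single_eq_same, Pi.single_eq_same, ← hX]
  · rw [Pi.single_eq_of_ne h, Pi.single_zero, map_zero, Pi.single_eq_of_ne h]
    rfl

/-- If the commutants of `L` and of `G` on the summands are equal, and `L` contains a maximal torus of
`G`, then `L = G`. -/
theorem eq_of_comm_blocks (h : Inputs) (h2 : Inputs2) {L G : Submodule k (End k (∀ i, V i))}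
    (hLie : IsLie L) (hLG : L ≤ G) (hG : IsLie G) (hndG : NonDeg G) (hndL : NonDeg L)
    (hpart : ∀ X ∈ G, ∀ x i, X x i = X (Pi.single i (x i)) i)
    {t : Submodule ℂ (End ℂ (ℂ ⊗[k] (∀ i, V i)))} (htL : t ≤ bcS ℂ L)
    (hdiag : ∀ a ∈ t, ⨆ μ, End.eigenspace a μ = ⊤) (hcomm : ∀ a ∈ t, ∀ b ∈ t, a * b = b * a)
    (hcen : ∀ x ∈ bcS ℂ G, (∀ a ∈ t, a * x = x * a) → x ∈ t)
    (hcom : ∀ i, ∀ Y, pr i * Y = Y → Y * pr i = Y → (∀ X ∈ L, X * Y = Y * X) →
      ∀ X ∈ G, X * Y = Y * X) : L = G := by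
  have hLC : IsLie (bcS ℂ L) := (h.bc k ℂ _ L).2.1 hLie
  have hGC : IsLie (bcS ℂ G) := (h.bc k ℂ _ G).2.1 hG
  have hLGC : bcS ℂ L ≤ bcS ℂ G := bcS_mono hLG
  have hNL : NonDeg (bcS ℂ L) := (h.bc k ℂ _ L).2.2.1 hndL
  have hNG : NonDeg (bcS ℂ G) := (h.bc k ℂ _ G).2.2.1 hndG
  have TG : Pool.Agent.Y212.RM.Tor (bcS ℂ G) t := ⟨hGC, hNG, htL.trans hLGC, hdiag, hcomm, hcen⟩
  have TL : Pool.Agent.Y212.RM.Tor (bcS ℂ L) t :=
    ⟨hLC, hNL, htL, hdiag, hcomm, fun x hx => hcen x (hLGC hx)⟩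
  -- the projections over `ℂ`
  let q : ι → End ℂ (ℂ ⊗[k] (∀ i, V i)) := fun i => (pr (k := k) (V := V) i).baseChange ℂ
  have hqi : ∀ i, q i * q i = q i := by
    intro i
    have h1 : q i * q i = (pr (k := k) (V := V) i * pr i).baseChange ℂ :=
      (LinearMap.baseChange_comp ..).symm
    rw [h1, pr_idem]
  have hqsum : ∑ i, q i = 1 := by
    have h1 : ∑ i, q i = (∑ i, pr (k := k) (V := V) i).baseChange ℂ :=
      (map_sum (LinearMap.baseChangeHom k ℂ _ _) _ _).symm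
    rw [h1, sum_pr]
    exact LinearMap.baseChange_id
  have hqG : ∀ i, ∀ X ∈ bcS ℂ G, X * q i = q i * X := by
    intro i X hX
    induction hX using Submodule.span_induction with
    | mem X hX =>
      obtain ⟨Z, hZ, rfl⟩ := hX
      have h1 : Z.baseChange ℂ * q i = (Z * pr i).baseChange ℂ :=
        (LinearMap.baseChange_comp ..).symm
      have h2 : q i * Z.baseChange ℂ = (pr i * Z).baseChange ℂ :=
        (LinearMap.baseChange_comp ..).symm
      rw [h1, h2, pr_comm (hpart Z hZ)]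
    | zero => rw [zero_mul, mul_zero]
    | add X Y _ _ hX hY => rw [add_mul, mul_add, hX, hY]
    | smul c X _ hX => rw [smul_mul_assoc, mul_smul_comm, hX]
  refine (h.bc k ℂ _ G).2.2.2.2.1 L hLG (max_rank_blocks (fun i => LinearMap.range (q i)) ?_ ?_
    TG TL hLGC fun i W hWi hW => ?_)
  · rw [eq_top_iff]
    intro x _
    have h1 : x = ∑ i, q i x := by
      rw [← LinearMap.sum_apply, hqsum]
      rfl
    rw [h1]
    exact Submodule.sum_mem _ fun i _ => Submodule.mem_iSup_of_mem i ⟨x, rfl⟩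
  · rintro i X hX _ ⟨x, rfl⟩
    refine ⟨X x, ?_⟩
    exact (LinearMap.congr_fun (hqG i X hX) x).symm
  obtain ⟨P, hP1, hP2, hP3⟩ := h2.weyl ℂ _ (bcS ℂ L) hLC hNL (fun x hx hxL =>
    hdiag x (hcen x (hLGC hx) fun a ha => (hxL a (htL ha)).symm)) W hW
  have hqP : q i * P = P := by
    refine LinearMap.ext fun x => ?_
    obtain ⟨y, hy⟩ := hWi (hP2 x)
    rw [Module.End.mul_apply, ← hy]
    exact LinearMap.congr_fun (hqi i) y
  refine ⟨P * q i, ?_, fun x => hP2 _, fun x hx => ?_⟩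
  · have h3 : ∀ π : ℂ →ₗ[k] k, ∀ X ∈ G, X * pM π (P * q i) = pM π (P * q i) * X := by
      intro π
      refine hcom i _ ?_ ?_ fun X hX => ?_
      · rw [← pM_bc_mul]
        change pM π (q i * (P * q i)) = _
        rw [← mul_assoc, hqP]
      · rw [← pM_mul_bc]
        change pM π (P * q i * q i) = _
        rw [mul_assoc, hqi]
      · rw [← pM_bc_mul, ← mul_assoc, hP1 _ (mem_bcS hX), mul_assoc, hqG i _ (hLGC (mem_bcS hX)),
          ← mul_assoc, pM_mul_bc]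
    obtain ⟨R, hR⟩ : ∃ R, R = P * q i := ⟨_, rfl⟩
    rw [← hR] at h3 ⊢
    intro X hX
    induction hX using Submodule.span_induction with
    | mem X hX =>
      obtain ⟨Z, hZ, rfl⟩ := hX
      rw [← sub_eq_zero]
      refine eq_zero_of_pM h.bc fun π => ?_
      have h4 : (pM π (Z.baseChange ℂ * R - R * Z.baseChange ℂ) :
          End k (∀ i, V i)) = pM π (Z.baseChange ℂ * R) - pM π (R * Z.baseChange ℂ) := by
        refine LinearMap.ext fun v => ?_
        rw [LinearMap.sub_apply, pM_apply, pM_apply, pM_apply, LinearMap.sub_apply, map_sub]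
      rw [h4, pM_bc_mul, pM_mul_bc, h3 π Z hZ, sub_self]
    | zero => rw [zero_mul, mul_zero]
    | add X Y _ _ hX hY => rw [add_mul, mul_add, hX, hY]
    | smul c X _ hX => rw [smul_mul_assoc, mul_smul_comm, hX]
  · obtain ⟨y, rfl⟩ := hWi hx
    have h1 : q i (q i y) = q i y := LinearMap.congr_fun (hqi i) y
    rw [Module.End.mul_apply, h1]
    exact hP3 _ hx

end loc

section main

variable {ι : Type} [Fintype ι] [DecidableEq ι] {n : ι → ℕ} {ℓ : ℕ} [hℓ : Fact ℓ.Prime]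
  {Γ : Type} [Group Γ] [TopologicalSpace Γ] [IsTopologicalGroup Γ] [CompactSpace Γ]

theorem single_blk {k : Type} [Field k] {V : ι → Type} [∀ i, AddCommGroup (V i)]
    [∀ i, Module k (V i)] {X : End k (∀ i, V i)}
    (hX : ∀ x i, X x i = X (Pi.single i (x i)) i) (i : ι) (z : V i) :
    X (Pi.single i z) = Pi.single i (blk i X z) := by
  refine funext fun j => ?_
  rw [hX]
  by_cases h : j = i
  · subst h
    rw [Pi.single_eq_same, Pi.single_eq_same]
    rfl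
  · rw [Pi.single_eq_of_ne h, Pi.single_zero, map_zero, Pi.single_eq_of_ne h]
    rfl

theorem full_of_block_endos (ρ : ∀ i, Representation ℚ_[ℓ] Γ (Fin (n i) → ℚ_[ℓ]))
    (hρ : ∀ i, Continuous fun g => LinearMap.toMatrix' (ρ i g))
    (𝔤 : Submodule ℚ_[ℓ] (End ℚ_[ℓ] (∀ i, Fin (n i) → ℚ_[ℓ]))) (h𝔤 : IsMotivic ρ 𝔤)
    {L : Submodule ℚ_[ℓ] (End ℚ_[ℓ] (∀ i, Fin (n i) → ℚ_[ℓ]))}
    (alg : Algebra ℚ_[ℓ] ℂ) {t : Submodule ℂ (End ℂ (ℂ ⊗[ℚ_[ℓ]] (∀ i, Fin (n i) → ℚ_[ℓ])))}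
    (hss : FiniteIndexSemisimple (sumRep ρ))
    (hLT : ∀ X, X ∈ L ↔ ∀ (m : ℕ) (φ : Tensor ℚ_[ℓ] (∀ i, Fin (n i) → ℚ_[ℓ]) m),
      TateTensor (sumRep ρ) φ → KillsTensor X φ) (hLie : IsLie L) (hLG : L ≤ 𝔤)
    (hND : NonDeg L) (htL : t ≤ bcS ℂ L) (hdiag : ∀ a ∈ t, ⨆ μ, End.eigenspace a μ = ⊤)
    (hcomm : ∀ a ∈ t, ∀ b ∈ t, a * b = b * a)
    (hcen : ∀ x ∈ bcS ℂ 𝔤, (∀ a ∈ t, a * x = x * a) → x ∈ t)
    (hend : ∀ i, EndosFixed (ρ i) (imageIn 𝔤 i)) : L = 𝔤 := by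
  classical
  have h := inputs
  have h2 := inputs2
  have hL : ∀ X, X ∈ L ↔ X ∈ LT (sumRep ρ) := fun X =>
    ⟨fun hX => mem_LT_of_semisimple (sumRep ρ) hss ((hLT X).1 hX), fun hX => (hLT X).2 hX.2⟩
  obtain ⟨L', hL', -, hAd', -⟩ := h.lie ℚ_[ℓ] (∀ i, Fin (n i) → ℚ_[ℓ]) _ (sumRep ρ)
  have hLL' : L' = L := by
    ext X
    rw [hL', hL]
  rw [hLL'] at hAd'
  obtain ⟨Δ', hΔ', hcommΔ⟩ := h2.tfr ℓ ι n _ ρ hρ (comm L) (comm_conj (sumRep ρ) hAd')
    (comm_order (sumRep ρ) h h2 hL)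
  refine eq_of_comm_blocks h h2 hLie hLG h𝔤.bracket h𝔤.nondeg hND h𝔤.parts htL hdiag hcomm hcen
    fun i Y hY1 hY2 hYL X hX => ?_
  have hYv : ∀ v, Y v = Pi.single i (blk i Y (v i)) := by
    intro v
    have h3 : (pr i * (Y * pr i) : End ℚ_[ℓ] (∀ i, Fin (n i) → ℚ_[ℓ])) v = Y v := by
      rw [hY2, hY1]
    exact h3.symm
  have hy : ∀ γ ∈ Δ', ρ i γ * blk i Y = blk i Y * ρ i γ := by
    intro γ hγ
    refine LinearMap.ext fun x => ?_
    have h3 := congrFun (LinearMap.congr_fun (hcommΔ γ hγ Y hYL) (Pi.single i x)) i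
    rw [Module.End.mul_apply, Module.End.mul_apply, sumRep_single] at h3
    exact h3
  have h4 := hend i (blk i Y) ⟨Δ', hΔ', hy⟩ (blk i X) ⟨X, hX, rfl⟩
  refine LinearMap.ext fun v => ?_
  rw [Module.End.mul_apply, Module.End.mul_apply, hYv v, hYv (X v), single_blk (h𝔤.parts X hX) i,
    h𝔤.parts X hX v i]
  exact congrArg (Pi.single i) (LinearMap.congr_fun h4 (v i))

end main

section parts

theorem sumRep_single' {k : Type} [Field k] {ι : Type} [DecidableEq ι]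
    {V : ι → Type} [∀ i, AddCommGroup (V i)] [∀ i, Module k (V i)] {Γ : Type} [Group Γ]
    (ρ : ∀ i, Representation k Γ (V i)) (γ : Γ) (i : ι) (z : V i) :
    sumRep ρ γ (Pi.single i z) = Pi.single i (ρ i γ z) := by
  refine funext fun j => ?_
  change ρ j γ (Pi.single i z j) = _
  by_cases h : j = i
  · subst h
    rw [Pi.single_eq_same, Pi.single_eq_same]
  · rw [Pi.single_eq_of_ne h, Pi.single_eq_of_ne h, map_zero]

variable {k : Type} [Field k] {ι : Type} [Fintype ι] [DecidableEq ι]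
  {V : ι → Type} [∀ i, AddCommGroup (V i)] [∀ i, Module k (V i)] {Γ : Type} [Group Γ]

/-- the map from the sum to the `i`-th summand, and dually -/
noncomputable def pull (i : ι) :
    ((∀ i, V i) × Dual k (∀ i, V i)) →ₗ[k] (V i × Dual k (V i)) :=
  (LinearMap.proj i).prodMap (LinearMap.single k V i).dualMap

theorem pull_surj (i : ι) : Function.Surjective (pull (k := k) (V := V) i) := by
  rintro ⟨x, ξ⟩
  refine ⟨(Pi.single i x, ξ ∘ₗ LinearMap.proj i), ?_⟩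
  refine Prod.ext ?_ ?_
  · exact Pi.single_eq_same i x
  · refine LinearMap.ext fun z => ?_
    change ξ ((Pi.single i z : ∀ i, V i) i) = ξ z
    rw [Pi.single_eq_same]

theorem pull_lie {X : End k (∀ i, V i)} (hX : ∀ x i, X x i = X (Pi.single i (x i)) i) (i : ι)
    (w : (∀ i, V i) × Dual k (∀ i, V i)) : pull i (lie X w) = lie (blk i X) (pull i w) := by
  refine Prod.ext ?_ ?_
  · exact hX w.1 i
  · refine LinearMap.ext fun z => ?_
    change -(w.2 (X (Pi.single i z))) = -(w.2 (Pi.single i (blk i X z)))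
    rw [single_blk hX]

theorem pull_grp (ρ : ∀ i, Representation k Γ (V i)) (γ : Γ) (i : ι)
    (w : (∀ i, V i) × Dual k (∀ i, V i)) :
    pull i (grp (sumRep ρ γ) (sumRep ρ γ⁻¹) w) = grp (ρ i γ) (ρ i γ⁻¹) (pull i w) := by
  refine Prod.ext rfl ?_
  refine LinearMap.ext fun z => ?_
  change w.2 (sumRep ρ γ⁻¹ (Pi.single i z)) = w.2 (Pi.single i (ρ i γ⁻¹ z))
  rw [sumRep_single' ρ γ⁻¹ i z]

/-- a tensor on the `i`-th summand as a tensor on the sum -/
noncomputable def up (i : ι) {m : ℕ} (φ : Tensor k (V i) m) : Tensor k (∀ i, V i) m :=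
  φ.compLinearMap fun _ => pull i

theorem up_apply (i : ι) {m : ℕ} (φ : Tensor k (V i) m) (v) :
    up i φ v = φ fun l => pull i (v l) := rfl

theorem kills_up {X : End k (∀ i, V i)} (hX : ∀ x i, X x i = X (Pi.single i (x i)) i) (i : ι)
    {m : ℕ} (φ : Tensor k (V i) m) : KillsTensor X (up i φ) ↔ KillsTensor (blk i X) φ := by
  have key : ∀ v : Fin m → (∀ i, V i) × Dual k (∀ i, V i),
      ∑ l, up i φ (Function.update v l (lie X (v l))) =
        ∑ l, φ (Function.update (fun l => pull i (v l)) l (lie (blk i X) (pull i (v l)))) := by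
    intro v
    refine Finset.sum_congr rfl fun l _ => ?_
    rw [up_apply]
    congr 1
    funext j
    by_cases h : j = l
    · subst h
      rw [Function.update_self, Function.update_self, pull_lie hX]
    · rw [Function.update_of_ne h, Function.update_of_ne h]
  constructor
  · intro h w
    choose v hv using fun l => pull_surj i (w l)
    have h1 := h v
    rw [key v] at h1
    simpa only [hv] using h1
  · intro h v
    rw [key v]
    exact h _

theorem tate_up (ρ : ∀ i, Representation k Γ (V i)) (i : ι) {m : ℕ} (φ : Tensor k (V i) m) :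
    TateTensor (sumRep ρ) (up i φ) ↔ TateTensor (ρ i) φ := by
  constructor
  · rintro ⟨Δ, hΔ, h⟩
    refine ⟨Δ, hΔ, fun γ hγ w => ?_⟩
    choose v hv using fun l => pull_surj i (w l)
    have h1 := h γ hγ v
    rw [up_apply, up_apply] at h1
    simpa only [pull_grp, hv] using h1
  · rintro ⟨Δ, hΔ, h⟩
    refine ⟨Δ, hΔ, fun γ hγ v => ?_⟩
    rw [up_apply, up_apply]
    simpa only [pull_grp] using h γ hγ fun l => pull i (v l)

/-- If the Tate tensors of the sum are the tensors killed by `𝔤`, then the same holds for the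
summands. -/
theorem tate_part (ρ : ∀ i, Representation k Γ (V i)) (𝔤 : Submodule k (End k (∀ i, V i)))
    (hpart : ∀ X ∈ 𝔤, ∀ x i, X x i = X (Pi.single i (x i)) i)
    (h : TateIsKilledBy (sumRep ρ) 𝔤) (i : ι) : TateIsKilledBy (ρ i) (imageIn 𝔤 i) := by
  intro m φ
  rw [← tate_up ρ i φ, h m]
  constructor
  · rintro h1 _ ⟨X, hX, rfl⟩
    exact (kills_up (hpart X hX) i φ).1 (h1 X hX)
  · intro h1 X hX
    exact (kills_up (hpart X hX) i φ).2 (h1 _ ⟨X, hX, rfl⟩)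

end parts

section final

variable {Γ : Type} [Group Γ] [TopologicalSpace Γ] [IsTopologicalGroup Γ] [CompactSpace Γ]

/-- Every endomorphism of the `i`-th summand which commutes with a subgroup of finite index of `Γ`
commutes with the image of `𝔤` in the endomorphisms of this summand. -/
def EndomorphismsOfPartFixed {ι : Type} [DecidableEq ι] {n : ι → ℕ} {ℓ : ℕ} [Fact ℓ.Prime]
    (ρ : Reps Γ n ℓ) (𝔤 : EndSpace n ℓ) (i : ι) : Prop :=
  EndosFixed (ρ i) (imageIn (k := ℚ_[ℓ]) (V := fun i => Fin (n i) → ℚ_[ℓ]) 𝔤 i)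

/-- The Tate tensors of the `i`-th summand are the tensors killed by the image of `𝔤` in the
endomorphisms of this summand. -/
def TateTensorsOfPart {ι : Type} [DecidableEq ι] {n : ι → ℕ} {ℓ : ℕ} [Fact ℓ.Prime]
    (ρ : Reps Γ n ℓ) (𝔤 : EndSpace n ℓ) (i : ι) : Prop :=
  TateIsKilledBy (ρ i) (imageIn (k := ℚ_[ℓ]) (V := fun i => Fin (n i) → ℚ_[ℓ]) 𝔤 i)

theorem endos_of_tate_part {ι : Type} [DecidableEq ι] {n : ι → ℕ} {ℓ : ℕ} [Fact ℓ.Prime]
    (ρ : Reps Γ n ℓ) (𝔤 : EndSpace n ℓ) (i : ι) (h : TateTensorsOfPart ρ 𝔤 i) :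
    EndomorphismsOfPartFixed ρ 𝔤 i := endos_of_full (ρ i) _ h

theorem main_block (s : Gal(AlgebraicClosure ℚ/ℚ) →* Γ) (hs : Continuous s)
    {ι : Type} [Fintype ι] [DecidableEq ι] {n : ι → ℕ} (w : ι → ℤ) (c : ℕ)
    (S : Set (HeightOneSpectrum (𝓞 ℚ))) (hS : S.Finite)
    (P : HeightOneSpectrum (𝓞 ℚ) → ι → ℚ[X])
    (ℓ₀ : ℕ) [hℓ₀ : Fact ℓ₀.Prime] (ρ₀ : Reps Γ n ℓ₀) (hρ₀ : Conts ρ₀)
    (hP₀ : ∀ v ∉ S, ¬ Above v ℓ₀ → ∀ i, GoodReduction (restrictTo ρ₀ s) i (w i) v (P v i) ∧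
      IntegralRoots c v (P v i))
    (r : ℕ) (hr : ∃ σ, IndependentEigenvalues ρ₀ (s σ) r)
    (ℓ : ℕ) [hℓ : Fact ℓ.Prime] (ρ : Reps Γ n ℓ) (hρ : Conts ρ)
    (hP : ∀ v ∉ S, ¬ Above v ℓ → ∀ i, GoodReduction (restrictTo ρ s) i (w i) v (P v i))
    (𝔤 : EndSpace n ℓ) (h𝔤 : Motivic ρ 𝔤) (hrank : RankLE 𝔤 r) :
    (∀ i, EndomorphismsOfPartFixed ρ 𝔤 i) ↔ TateTensorsOf ρ 𝔤 := by
  constructor
  · intro hend
    obtain ⟨L, alg, t, hss, hLT, hLie, hLG, hND, -, -, htL, hdiag, hcomm, hcen⟩ :=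
      tuple s hs w c S hS P ℓ₀ ρ₀ hρ₀ hP₀ r hr ℓ ρ hρ hP 𝔤 h𝔤 hrank
    have hfull : L = 𝔤 :=
      full_of_block_endos ρ hρ 𝔤 h𝔤 alg hss hLT hLie hLG hND htL hdiag hcomm hcen hend
    intro m φ
    exact ⟨fun hφ X hX => (hLT X).1 (hfull ▸ hX) m φ hφ, IsMotivic.tate h𝔤 m φ⟩
  · exact fun h i => endos_of_full (ρ i) _ (tate_part ρ 𝔤 h𝔤.parts h i)

theorem main_sum (s : Gal(AlgebraicClosure ℚ/ℚ) →* Γ) (hs : Continuous s)
    {ι : Type} [Fintype ι] [DecidableEq ι] {n : ι → ℕ} (w : ι → ℤ) (c : ℕ)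
    (S : Set (HeightOneSpectrum (𝓞 ℚ))) (hS : S.Finite)
    (P : HeightOneSpectrum (𝓞 ℚ) → ι → ℚ[X])
    (ℓ₀ : ℕ) [hℓ₀ : Fact ℓ₀.Prime] (ρ₀ : Reps Γ n ℓ₀) (hρ₀ : Conts ρ₀)
    (hP₀ : ∀ v ∉ S, ¬ Above v ℓ₀ → ∀ i, GoodReduction (restrictTo ρ₀ s) i (w i) v (P v i) ∧
      IntegralRoots c v (P v i))
    (r : ℕ) (hr : ∃ σ, IndependentEigenvalues ρ₀ (s σ) r)
    (ℓ : ℕ) [hℓ : Fact ℓ.Prime] (ρ : Reps Γ n ℓ) (hρ : Conts ρ)
    (hP : ∀ v ∉ S, ¬ Above v ℓ → ∀ i, GoodReduction (restrictTo ρ s) i (w i) v (P v i))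
    (𝔤 : EndSpace n ℓ) (h𝔤 : Motivic ρ 𝔤) (hrank : RankLE 𝔤 r) :
    (∀ i, TateTensorsOfPart ρ 𝔤 i) ↔ TateTensorsOf ρ 𝔤 :=
  ⟨fun h => (main_block s hs w c S hS P ℓ₀ ρ₀ hρ₀ hP₀ r hr ℓ ρ hρ hP 𝔤 h𝔤 hrank).1 fun i =>
    endos_of_tate_part ρ 𝔤 i (h i), fun h i => tate_part ρ 𝔤 h𝔤.parts h i⟩

end final

end Pool.Agent.R931.BD
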