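import Pool.Agent.Y212.RM.Sym

/-!
# Subalgebras of maximal rank with the same commutant
-/

set_option autoImplicit false

namespace Pool.Agent.R931.BD

open Module Polynomial Pool.Agent.Y114.RM Pool.Agent.Y212.RM

/-- positive complex numbers, for the lexicographic order -/
def pos (c : ℂ) : Prop := 0 < c.re ∨ c.re = 0 ∧ 0 < c.im

/-- the lexicographic order -/
def oc (c : ℂ) : ℝ ×ₗ ℝ := toLex (c.re, c.im)

theorem pos_or {c : ℂ} (h : c ≠ 0) : pos c ∨ pos (-c) := by
  unfold pos
  rw [Complex.neg_re, Complex.neg_im]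
  rcases lt_trichotomy 0 c.re with h1 | h1 | h1
  · exact Or.inl (Or.inl h1)
  · rcases lt_trichotomy 0 c.im with h2 | h2 | h2
    · exact Or.inl (Or.inr ⟨h1.symm, h2⟩)
    · exact absurd (Complex.ext h1.symm h2.symm) h
    · exact Or.inr (Or.inr ⟨by rw [← h1, neg_zero], by linarith⟩)
  · exact Or.inr (Or.inl (by linarith))

theorem not_pos_neg {c : ℂ} (h : pos c) : ¬ pos (-c) := by
  unfold pos at h ⊢
  rw [Complex.neg_re, Complex.neg_im]
  rintro (h1 | ⟨h1, h2⟩) <;> rcases h with h3 | ⟨h3, h4⟩ <;> linarith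

theorem not_pos_zero : ¬ pos 0 := by
  unfold pos
  rw [Complex.zero_re, Complex.zero_im]
  rintro (h1 | ⟨h1, h2⟩) <;> linarith

theorem oc_lt {a b : ℂ} : oc a < oc b ↔ pos (b - a) := by
  unfold oc pos
  rw [Prod.Lex.toLex_lt_toLex, Complex.sub_re, Complex.sub_im]
  constructor
  · rintro (h | ⟨h, h'⟩)
    · exact Or.inl (by simpa using h)
    · exact Or.inr ⟨by simp only at h; linarith, by simp only at h'; linarith⟩
  · rintro (h | ⟨h, h'⟩)
    · exact Or.inl (by simp only; linarith)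
    · exact Or.inr ⟨by simp only; linarith, by simp only; linarith⟩

theorem pos_add {a b : ℂ} (ha : pos a) (hb : pos b) : pos (a + b) := by
  unfold pos at *
  rw [Complex.add_re, Complex.add_im]
  rcases ha with h1 | ⟨h1, h2⟩ <;> rcases hb with h3 | ⟨h3, h4⟩
  · exact Or.inl (by linarith)
  · exact Or.inl (by linarith)
  · exact Or.inl (by linarith)
  · exact Or.inr ⟨by linarith, by linarith⟩

variable {V : Type} [AddCommGroup V] [Module ℂ V] [FiniteDimensional ℂ V]
  {G L t : Submodule ℂ (End ℂ V)}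

/-- A torus contains a regular element. -/
theorem exists_regular (T : Tor G t) : ∃ D ∈ t, ∀ X ∈ G, D * X = X * D → X ∈ t := by
  classical
  by_contra hcon
  push Not at hcon
  let R : Set (t → ℂ) := {χ | ∃ X ∈ G, X ∉ t ∧ ∀ a : t, (a : End ℂ V) * X - X * a = χ a • X}
  have hR : R.Finite := by
    let f : t → End ℂ (End ℂ V) := fun a => adE (a : End ℂ V)
    have hfc : ∀ a b, Commute (f a) (f b) := by
      intro a b
      have h1 := adE_comm (a : End ℂ V) b
      rw [T.comm a a.2 b b.2, sub_self] at h1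
      have h2 : adE (0 : End ℂ V) = 0 := by
        apply LinearMap.ext
        intro Z
        rw [adE_apply, zero_mul, mul_zero, sub_self]
        rfl
      rw [h2] at h1
      exact sub_eq_zero.1 h1
    have h1 := Module.End.independent_iInf_maxGenEigenspace_of_forall_mapsTo f
      (fun i j φ => End.mapsTo_maxGenEigenspace_of_comm (hfc j i) φ)
    have h2 := WellFoundedGT.finite_ne_bot_of_iSupIndep h1
    refine h2.subset ?_
    rintro χ ⟨X, hX, hXt, hw⟩ hbot
    apply hXt
    have h3 : X ∈ (⨅ i, (f i).maxGenEigenspace (χ i)) := by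
      rw [Submodule.mem_iInf]
      intro a
      refine Pool.Agent.TH118.SG.mem_gen.2 ⟨1, ?_⟩
      rw [pow_one, LinearMap.sub_apply, Module.algebraMap_end_apply, sub_eq_zero]
      exact hw a
    rw [hbot, Submodule.mem_bot] at h3
    rw [h3]
    exact t.zero_mem
  have hex : ∀ D : t, ∃ χ ∈ R, χ D = 0 := by
    intro D
    obtain ⟨X, hX, hDX, hXt⟩ := hcon D D.2
    by_contra hno
    push Not at hno
    have h1 : ∀ Y ∈ cen G (D : End ℂ V), Y ∈ t := by
      refine wt_induction t T.diag T.comm (cen G D) ?_ t.zero_mem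
        (fun X Y _ _ hX hY => t.add_mem hX hY) ?_
      · rintro a ha Y ⟨hY, hDY⟩
        refine ⟨T.lie a (T.le ha) Y hY, ?_⟩
        have h2 := T.comm a ha D D.2
        calc (D : End ℂ V) * (a * Y - Y * a) = (D * a) * Y - (D * Y) * a := by noncomm_ring
          _ = (a * Y - Y * a) * D := by rw [← h2, hDY, mul_assoc, hDY]; noncomm_ring; rw [h2]
      · rintro χ Y ⟨hY, hDY⟩ hw
        by_contra hYt
        have hχD : χ D ≠ 0 := hno χ ⟨Y, hY, hYt, hw⟩
        have h2 : χ D • Y = 0 := by rw [← hw D, hDY, sub_self]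
        rcases smul_eq_zero.1 h2 with h | h
        · exact hχD h
        · exact hYt (h ▸ t.zero_mem)
    exact hXt (h1 X ⟨hX, hDX⟩)
  have : Finite R := hR
  choose Y hY hYt hYw using fun χ : R => χ.2
  let p : R → Submodule ℂ t := fun χ =>
    LinearMap.ker ((LinearMap.mulRight ℂ (Y χ) - LinearMap.mulLeft ℂ (Y χ)) ∘ₗ t.subtype)
  obtain ⟨χ, hχ⟩ := Subspace.exists_eq_top_of_iUnion_eq_univ (p := p) (by
    ext D
    simp only [Set.mem_iUnion, Set.mem_univ, iff_true]
    obtain ⟨χ, hχ, h0⟩ := hex D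
    refine ⟨⟨χ, hχ⟩, ?_⟩
    change (D : End ℂ V) * Y ⟨χ, hχ⟩ - Y ⟨χ, hχ⟩ * D = 0
    rw [hYw]
    exact (congrArg (· • Y ⟨χ, hχ⟩) h0).trans (zero_smul _ _))
  apply hYt χ
  apply T.cen _ (hY χ)
  intro a ha
  have h1 : (⟨a, ha⟩ : t) ∈ p χ := by rw [hχ]; trivial
  exact sub_eq_zero.1 h1

end Pool.Agent.R931.BD
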