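import Pool.Agent.R931.BD.Main
import Pool.Agent.R931.IR.Place

/-!
# The Lie algebra of the Tate tensors is full if there are no new endomorphisms
-/

set_option autoImplicit false
set_option linter.unusedSectionVars false
set_option linter.unusedVariables false

namespace Pool.Agent.R931.BD

open NumberField IsDedekindDomain Module Polynomial TensorProduct Pool.Agent.TH118.SG
  Pool.Agent.Y114.MU Pool.Agent.Y114.TF Pool.Agent.Y114.GF Pool.Agent.H204R3.GP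
  Pool.Agent.Y114.RM Pool.Agent.R931.IR

section bc

variable {k : Type} [Field k] {C : Type} [Field C] [Algebra k C] {V : Type} [AddCommGroup V]
  [Module k V] [FiniteDimensional k V]

theorem eq_zero_of_pM (h : S_BC) {Y : End C (C ⊗[k] V)}
    (hY : ∀ π : C →ₗ[k] k, (pM π Y : End k V) = 0) : Y = 0 := by
  have h1 : Y ∈ bcS C (⊥ : Submodule k (End k V)) := by
    rw [(h k C V ⊥).1]
    intro π
    rw [hY π]
    exact Submodule.zero_mem _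
  have h2 : bcS C (⊥ : Submodule k (End k V)) = ⊥ := by
    unfold bcS
    rw [Submodule.span_eq_bot]
    rintro _ ⟨X, hX, rfl⟩
    rw [SetLike.mem_coe, Submodule.mem_bot] at hX
    rw [hX]
    exact LinearMap.baseChange_zero
  rw [h2] at h1
  exact (Submodule.mem_bot C).1 h1

end bc

section loc

variable {k : Type} [Field k] [CharZero k] [Algebra k ℂ] {V : Type} [AddCommGroup V] [Module k V]
  [FiniteDimensional k V]

/-- If the commutant of `L` is the commutant of `G`, and `L` contains a maximal torus of `G`, then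
`L = G`. -/
theorem eq_of_comm (h : Inputs) (h2 : Inputs2) {L G : Submodule k (End k V)}
    (hLie : IsLie L) (hLG : L ≤ G) (hG : IsLie G) (hndG : NonDeg G) (hndL : NonDeg L)
    {t : Submodule ℂ (End ℂ (ℂ ⊗[k] V))} (htL : t ≤ bcS ℂ L)
    (hdiag : ∀ a ∈ t, ⨆ μ, End.eigenspace a μ = ⊤) (hcomm : ∀ a ∈ t, ∀ b ∈ t, a * b = b * a)
    (hcen : ∀ x ∈ bcS ℂ G, (∀ a ∈ t, a * x = x * a) → x ∈ t)
    (hcom : ∀ Y, (∀ X ∈ L, X * Y = Y * X) → ∀ X ∈ G, X * Y = Y * X) : L = G := by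
  have hLC : IsLie (bcS ℂ L) := (h.bc k ℂ V L).2.1 hLie
  have hGC : IsLie (bcS ℂ G) := (h.bc k ℂ V G).2.1 hG
  have hLGC : bcS ℂ L ≤ bcS ℂ G := bcS_mono hLG
  have hNL : NonDeg (bcS ℂ L) := (h.bc k ℂ V L).2.2.1 hndL
  have hNG : NonDeg (bcS ℂ G) := (h.bc k ℂ V G).2.2.1 hndG
  have TG : Pool.Agent.Y212.RM.Tor (bcS ℂ G) t := ⟨hGC, hNG, htL.trans hLGC, hdiag, hcomm, hcen⟩
  have TL : Pool.Agent.Y212.RM.Tor (bcS ℂ L) t :=
    ⟨hLC, hNL, htL, hdiag, hcomm, fun x hx => hcen x (hLGC hx)⟩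
  refine (h.bc k ℂ V G).2.2.2.2.1 L hLG (max_rank TG TL hLGC fun W hW => ?_)
  obtain ⟨P, hP1, hP2, hP3⟩ := h2.weyl ℂ _ (bcS ℂ L) hLC hNL (fun x hx hxL =>
    hdiag x (hcen x (hLGC hx) fun a ha => (hxL a (htL ha)).symm)) W hW
  refine ⟨P, ?_, hP2, hP3⟩
  have h3 : ∀ π : ℂ →ₗ[k] k, ∀ X ∈ G, X * pM π P = pM π P * X := by
    intro π
    refine hcom _ fun X hX => ?_
    rw [← pM_bc_mul, hP1 _ (mem_bcS hX), pM_mul_bc]
  intro X hX
  induction hX using Submodule.span_induction with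
  | mem X hX =>
    obtain ⟨Z, hZ, rfl⟩ := hX
    rw [← sub_eq_zero]
    refine eq_zero_of_pM h.bc fun π => ?_
    have h4 : (pM π (Z.baseChange ℂ * P - P * Z.baseChange ℂ) : End k V) =
        pM π (Z.baseChange ℂ * P) - pM π (P * Z.baseChange ℂ) := by
      refine LinearMap.ext fun v => ?_
      rw [LinearMap.sub_apply, pM_apply, pM_apply, pM_apply, LinearMap.sub_apply, map_sub]
    rw [h4, pM_bc_mul, pM_mul_bc, h3 π Z hZ, sub_self]
  | zero => rw [zero_mul, mul_zero]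
  | add X Y _ _ hX hY => rw [add_mul, mul_add, hX, hY]
  | smul c X _ hX => rw [smul_mul_assoc, mul_smul_comm, hX]

end loc

section main

variable {ι : Type} [Fintype ι] [DecidableEq ι] {n : ι → ℕ} {ℓ : ℕ} [hℓ : Fact ℓ.Prime]
  {Γ : Type} [Group Γ] [TopologicalSpace Γ] [IsTopologicalGroup Γ] [CompactSpace Γ]

/-- Every endomorphism of the sum which commutes with a subgroup of finite index of `Γ` commutes with
`𝔤`. -/
def EndosFixed {k : Type} [Field k] {V : Type} [AddCommGroup V] [Module k V] {Γ : Type} [Group Γ]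
    (ρ : Representation k Γ V) (𝔤 : Submodule k (End k V)) : Prop :=
  ∀ Y : End k V, (∃ Δ : Subgroup Γ, Δ.FiniteIndex ∧ ∀ γ ∈ Δ, ρ γ * Y = Y * ρ γ) →
    ∀ X ∈ 𝔤, X * Y = Y * X

theorem full_of_endos (ρ : ∀ i, Representation ℚ_[ℓ] Γ (Fin (n i) → ℚ_[ℓ]))
    (hρ : ∀ i, Continuous fun g => LinearMap.toMatrix' (ρ i g))
    (𝔤 : Submodule ℚ_[ℓ] (End ℚ_[ℓ] (∀ i, Fin (n i) → ℚ_[ℓ]))) (h𝔤 : IsMotivic ρ 𝔤)
    {L : Submodule ℚ_[ℓ] (End ℚ_[ℓ] (∀ i, Fin (n i) → ℚ_[ℓ]))}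
    (alg : Algebra ℚ_[ℓ] ℂ) {t : Submodule ℂ (End ℂ (ℂ ⊗[ℚ_[ℓ]] (∀ i, Fin (n i) → ℚ_[ℓ])))}
    (hss : FiniteIndexSemisimple (sumRep ρ))
    (hLT : ∀ X, X ∈ L ↔ ∀ (m : ℕ) (φ : Tensor ℚ_[ℓ] (∀ i, Fin (n i) → ℚ_[ℓ]) m),
      TateTensor (sumRep ρ) φ → KillsTensor X φ) (hLie : IsLie L) (hLG : L ≤ 𝔤)
    (hND : NonDeg L) (htL : t ≤ bcS ℂ L) (hdiag : ∀ a ∈ t, ⨆ μ, End.eigenspace a μ = ⊤)
    (hcomm : ∀ a ∈ t, ∀ b ∈ t, a * b = b * a)
    (hcen : ∀ x ∈ bcS ℂ 𝔤, (∀ a ∈ t, a * x = x * a) → x ∈ t)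
    (hend : EndosFixed (sumRep ρ) 𝔤) : L = 𝔤 := by
  classical
  have h := inputs
  have h2 := inputs2
  have hL : ∀ X, X ∈ L ↔ X ∈ LT (sumRep ρ) := fun X =>
    ⟨fun hX => mem_LT_of_semisimple (sumRep ρ) hss ((hLT X).1 hX), fun hX => (hLT X).2 hX.2⟩
  obtain ⟨L', hL', -, hAd', -⟩ := h.lie ℚ_[ℓ] (∀ i, Fin (n i) → ℚ_[ℓ]) _ (sumRep ρ)
  have hLL' : L' = L := by
    ext X
    rw [hL', hL]
  rw [hLL'] at hAd'
  obtain ⟨Δ', hΔ', hcommΔ⟩ := h2.tfr ℓ ι n _ ρ hρ (comm L) (comm_conj (sumRep ρ) hAd')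
    (comm_order (sumRep ρ) h h2 hL)
  exact eq_of_comm h h2 hLie hLG h𝔤.bracket h𝔤.nondeg hND htL hdiag hcomm hcen
    fun Y hY => hend Y ⟨Δ', hΔ', fun γ hγ => hcommΔ γ hγ Y hY⟩

/-- If the Tate tensors are killed by `𝔤`, then so are the endomorphisms. -/
theorem endos_of_full {k : Type} [Field k] {V : Type} [AddCommGroup V] [Module k V] {Γ : Type}
    [Group Γ] (ρ : Representation k Γ V) (𝔤 : Submodule k (End k V))
    (h : TateIsKilledBy ρ 𝔤) : EndosFixed ρ 𝔤 := by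
  rintro Y ⟨Δ, hΔ, hY⟩ X hX
  exact tate_comm ρ (fun m φ hφ => (h m φ).1 hφ X hX) hΔ fun s hs => (hY s hs).symm

end main

end Pool.Agent.R931.BD
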