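import Pool.Agent.R931.BD.Trip

/-!
# Subalgebras of maximal rank with the same stable subspaces: the theorem
-/

set_option autoImplicit false

namespace Pool.Agent.R931.BD

open Module Polynomial Pool.Agent.Y114.RM Pool.Agent.Y212.RM

variable {V : Type} [AddCommGroup V] [Module ℂ V] [FiniteDimensional ℂ V]
  {G L t : Submodule ℂ (End ℂ V)}

/-- the smallest subspace which contains `u` and is stable under the elements of `L` of nonpositive
weight -/
def low (L : Submodule ℂ (End ℂ V)) (D : End ℂ V) (u : V) : Submodule ℂ V :=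
  sInf {W | u ∈ W ∧ ∀ X ∈ L, ∀ c, ¬ pos c → D * X - X * D = c • X → ∀ w ∈ W, X w ∈ W}

omit [FiniteDimensional ℂ V] in
theorem mem_low {D : End ℂ V} {u : V} : u ∈ low L D u := by
  rw [low, Submodule.mem_sInf]
  exact fun W hW => hW.1

omit [FiniteDimensional ℂ V] in
theorem low_le {D : End ℂ V} {u : V} {W : Submodule ℂ V} (hu : u ∈ W)
    (h : ∀ X ∈ L, ∀ c, ¬ pos c → D * X - X * D = c • X → ∀ w ∈ W, X w ∈ W) : low L D u ≤ W :=
  sInf_le ⟨hu, h⟩

omit [FiniteDimensional ℂ V] in
theorem low_stable {D : End ℂ V} {u : V} {X : End ℂ V} (hX : X ∈ L) {c : ℂ} (hc : ¬ pos c)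
    (hw : D * X - X * D = c • X) : ∀ w ∈ low L D u, X w ∈ low L D u := by
  intro w hw'
  rw [low, Submodule.mem_sInf] at hw' ⊢
  exact fun W hW => hW.2 X hX c hc hw w (hw' W hW)

theorem not_pos_add {a b : ℂ} (ha : ¬ pos a) (hb : ¬ pos b) : ¬ pos (a + b) := by
  by_cases ha0 : a = 0
  · rwa [ha0, zero_add]
  by_cases hb0 : b = 0
  · rwa [hb0, add_zero]
  have h1 := (pos_or ha0).resolve_left ha
  have h2 := (pos_or hb0).resolve_left hb
  have h3 := pos_add h1 h2
  intro h4
  apply not_pos_neg h4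
  rwa [neg_add]

/-- the sum of the eigenspaces with eigenvalues at most `κ` -/
def below (D : End ℂ V) (κ : ℂ) : Submodule ℂ V :=
  ⨆ (c : ℂ) (_ : ¬ pos (c - κ)), End.eigenspace D c

omit [FiniteDimensional ℂ V] in
theorem low_below {D : End ℂ V} {u : V} {κ : ℂ} (hu : D u = κ • u) :
    low L D u ≤ below D κ := by
  refine low_le ?_ ?_
  · have h1 : End.eigenspace D κ ≤ below D κ := by
      refine le_iSup₂_of_le κ ?_ le_rfl
      rw [sub_self]
      exact not_pos_zero
    exact h1 (End.mem_eigenspace_iff.2 hu)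
  · intro X _ c hc hw w hw'
    have h2 : below D κ ≤ (below D κ).comap X := by
      refine iSup₂_le fun a ha x hx => ?_
      rw [Submodule.mem_comap]
      refine (le_iSup₂_of_le (a + c) ?_ le_rfl : End.eigenspace D (a + c) ≤ _) ?_
      · have h3 : a + c - κ = (a - κ) + c := by ring
        rw [h3]
        exact not_pos_add ha hc
      · rw [End.mem_eigenspace_iff] at hx ⊢
        have h1 := LinearMap.congr_fun hw x
        rw [LinearMap.sub_apply, Module.End.mul_apply, Module.End.mul_apply, hx, map_smul,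
          LinearMap.smul_apply, sub_eq_iff_eq_add] at h1
        rw [h1, add_smul, add_comm]
    exact h2 hw'

omit [FiniteDimensional ℂ V] in
theorem below_disjoint {D : End ℂ V} {κ μ : ℂ} (h : pos (μ - κ)) {w : V} (hw : w ∈ below D κ)
    (hw' : D w = μ • w) : w = 0 := by
  have h1 : below D κ ≤ ⨆ (b : ℂ) (_ : b ≠ μ), End.eigenspace D b := by
    refine iSup₂_le fun a ha => ?_
    refine le_iSup₂_of_le a ?_ le_rfl
    rintro rfl
    exact ha h
  have h2 := (End.eigenspaces_iSupIndep D μ).le_bot ⟨End.mem_eigenspace_iff.2 hw', h1 hw⟩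
  rwa [Submodule.mem_bot] at h2

/-- If the elements of positive weight kill `u`, then `low` is stable under `L`. -/
theorem low_all (TL : Tor L t) {D : End ℂ V} (hDt : D ∈ t) {u : V}
    (hu : ∀ δ, pos δ → ∀ e ∈ L, D * e - e * D = δ • e → e u = 0) :
    ∀ X ∈ L, ∀ w ∈ low L D u, X w ∈ low L D u := by
  have hL := TL.lie
  let M' : Submodule ℂ V :=
    { carrier := {w | w ∈ low L D u ∧ ∀ δ, pos δ → ∀ e ∈ L, D * e - e * D = δ • e →
        e w ∈ low L D u}
      add_mem' := by
        rintro a b ⟨ha, ha'⟩ ⟨hb, hb'⟩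
        refine ⟨Submodule.add_mem _ ha hb, fun δ hδ e he hw => ?_⟩
        rw [map_add]
        exact Submodule.add_mem _ (ha' δ hδ e he hw) (hb' δ hδ e he hw)
      zero_mem' := ⟨Submodule.zero_mem _, fun δ hδ e he hw => by
        rw [map_zero]
        exact Submodule.zero_mem _⟩
      smul_mem' := by
        rintro c a ⟨ha, ha'⟩
        refine ⟨Submodule.smul_mem _ c ha, fun δ hδ e he hw => ?_⟩
        rw [map_smul]
        exact Submodule.smul_mem _ c (ha' δ hδ e he hw) }
  have hM' : low L D u ≤ M' := by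
    refine low_le ⟨mem_low, fun δ hδ e he hw => ?_⟩ ?_
    · rw [hu δ hδ e he hw]
      exact Submodule.zero_mem _
    · rintro X hX c hc hXw w ⟨hw, hw'⟩
      refine ⟨low_stable hX hc hXw w hw, fun δ hδ e he hew => ?_⟩
      have h1 : e (X w) = X (e w) + (e * X - X * e) w := by
        rw [LinearMap.sub_apply, Module.End.mul_apply, Module.End.mul_apply]
        abel
      rw [h1]
      refine Submodule.add_mem _ (low_stable hX hc hXw _ (hw' δ hδ e he hew)) ?_
      have h2 : D * (e * X - X * e) - (e * X - X * e) * D = (δ + c) • (e * X - X * e) := by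
        have h3 : D * (e * X - X * e) - (e * X - X * e) * D = (D * e - e * D) * X +
            e * (D * X - X * D) - (D * X - X * D) * e - X * (D * e - e * D) := by noncomm_ring
        rw [h3, hew, hXw, smul_mul_assoc, smul_mul_assoc, mul_smul_comm, mul_smul_comm, add_smul,
          smul_sub, smul_sub]
        abel
      by_cases hp : pos (δ + c)
      · exact hw' _ hp _ (hL e he X hX) h2
      · exact low_stable (hL e he X hX) hp h2 w hw
  intro X hX w hw
  refine wt_induction t TL.diag TL.comm L (fun a ha X hX => hL a (TL.le ha) X hX)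
    (P := fun X => X w ∈ low L D u) ?_ ?_ ?_ X hX
  · exact Submodule.zero_mem _
  · intro X Y _ _ hX hY
    exact Submodule.add_mem _ hX hY
  · intro χ Y hY hYw
    by_cases hp : pos (χ ⟨D, hDt⟩)
    · exact (hM' hw).2 _ hp Y hY (hYw ⟨D, hDt⟩)
    · exact low_stable hY hp (hYw ⟨D, hDt⟩) w hw

/-- **Subalgebras of maximal rank.** If `L` contains the maximal torus `t` of `G` and every subspace
stable under `L` has a projection which commutes with `G`, then `L = G`. -/
theorem max_rank (TG : Tor G t) (TL : Tor L t) (hLG : L ≤ G)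
    (hproj : ∀ W : Submodule ℂ V, (∀ X ∈ L, ∀ x ∈ W, X x ∈ W) →
      ∃ P : End ℂ V, (∀ X ∈ G, X * P = P * X) ∧ (∀ x, P x ∈ W) ∧ ∀ x ∈ W, P x = x) : L = G := by
  have hL := TL.lie
  have hnd := TL.nd
  have htL := TL.le
  obtain ⟨D, hDt, hD⟩ := exists_regular TG
  by_contra hne
  have hperp : perp G L ≠ ⊥ := by
    intro h
    apply hne
    refine le_antisymm hLG fun X hX => ?_
    obtain ⟨Y, hY, hXY⟩ := perp_split hnd hLG hX
    rw [h, Submodule.mem_bot, sub_eq_zero] at hXY
    rw [hXY]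
    exact hY
  obtain ⟨c₀, hc₀, x₀, hx₀, hx₀w, hx₀0⟩ := exists_neg TG hL hnd hLG htL hDt hD hperp
  have hdiagD : ⨆ μ, End.eigenspace D μ = ⊤ := TG.diag D hDt
  have hex : ∀ x : End ℂ V, x ≠ 0 → ∃ (μ : ℂ) (v : V), D v = μ • v ∧ x v ≠ 0 := by
    intro x hx
    by_contra hcon
    push Not at hcon
    apply hx
    refine LinearMap.ext fun v => ?_
    have hv : v ∈ ⨆ μ, End.eigenspace D μ := by rw [hdiagD]; trivial
    induction hv using Submodule.iSup_induction' with
    | mem μ v hv => exact hcon μ v (End.mem_eigenspace_iff.1 hv)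
    | zero => rw [map_zero]; rfl
    | add a b _ _ ha hb => rw [map_add, ha, hb]; simp
  -- the maximal eigenvalue on which the negative part of the complement does not act trivially
  let Q : Set ℂ := {μ | ∃ v : V, D v = μ • v ∧ ∃ c, pos c ∧ ∃ x ∈ perp G L,
    D * x - x * D = (-c) • x ∧ x v ≠ 0}
  have hQfin : Q.Finite := by
    refine (End.finite_hasEigenvalue D).subset ?_
    rintro μ ⟨v, hv, c, hc, x, hx, hxw, hxv⟩
    refine End.hasEigenvalue_of_hasEigenvector ⟨End.mem_eigenspace_iff.2 hv, ?_⟩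
    rintro rfl
    exact hxv (map_zero x)
  have hQne : Q.Nonempty := by
    obtain ⟨μ, v, hv, hxv⟩ := hex x₀ hx₀0
    exact ⟨μ, v, hv, c₀, hc₀, x₀, hx₀, hx₀w, hxv⟩
  obtain ⟨μ, ⟨v₀, hv₀, c₁, hc₁, x₁, hx₁, hx₁w, hx₁v⟩, hμmax⟩ :=
    Set.exists_max_image Q oc hQfin hQne
  have hkill : ∀ (μ' : ℂ) (v' : V), pos (μ' - μ) → D v' = μ' • v' → ∀ c, pos c → ∀ y ∈ perp G L,
      D * y - y * D = (-c) • y → y v' = 0 := by
    intro μ' v' hμ' hv' c hc y hy hyw
    by_contra hcon
    have h1 := hμmax μ' ⟨v', hv', c, hc, y, hy, hyw, hcon⟩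
    exact absurd (oc_lt.2 hμ') (not_lt.2 h1)
  -- the minimal weight of the complement
  let B : Set ℂ := {c | pos c ∧ ∃ x ∈ perp G L, D * x - x * D = (-c) • x ∧
    ∃ v : V, D v = μ • v ∧ x v ≠ 0}
  have hBfin : B.Finite := by
    have h1 : ((fun c : ℂ => -c) '' {c | (adE D).HasEigenvalue c}).Finite :=
      (End.finite_hasEigenvalue (adE D)).image _
    refine h1.subset ?_
    rintro c ⟨hc, x, hx, hxw, v, hv, hxv⟩
    refine ⟨-c, End.hasEigenvalue_of_hasEigenvector ⟨End.mem_eigenspace_iff.2 hxw, ?_⟩, neg_neg c⟩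
    rintro rfl
    exact hxv rfl
  have hBne : B.Nonempty := ⟨c₁, hc₁, x₁, hx₁, hx₁w, v₀, hv₀, hx₁v⟩
  obtain ⟨β, ⟨hβ, x, hx, hxw, v, hv, hxv⟩, hβmin⟩ := Set.exists_min_image B oc hBfin hBne
  have hxv' : D (x v) = (μ - β) • x v := by
    have h1 := LinearMap.congr_fun hxw v
    rw [LinearMap.sub_apply, Module.End.mul_apply, Module.End.mul_apply, hv, map_smul,
      LinearMap.smul_apply, sub_eq_iff_eq_add] at h1
    rw [h1, sub_smul, neg_smul]
    abel
  -- an element of `L` of positive weight which does not kill `x v`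
  obtain ⟨δ, hδ, e, he, hew, hexv⟩ : ∃ δ, pos δ ∧ ∃ e ∈ L, D * e - e * D = δ • e ∧
      e (x v) ≠ 0 := by
    by_contra hcon
    push Not at hcon
    have hst := low_all TL hDt (u := x v) hcon
    obtain ⟨P, hPG, hP1, hP2⟩ := hproj (low L D (x v)) hst
    have h1 : D (P v) = μ • P v := by
      have h2 := LinearMap.congr_fun (hPG D (TG.le hDt)) v
      rw [Module.End.mul_apply, Module.End.mul_apply, hv, map_smul] at h2
      exact h2
    have h2 : P v = 0 := by
      refine below_disjoint (κ := μ - β) ?_ (low_below hxv' (hP1 v)) h1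
      rw [sub_sub_cancel]
      exact hβ
    have h3 := LinearMap.congr_fun (hPG x hx.1) v
    rw [Module.End.mul_apply, Module.End.mul_apply, h2, map_zero, hP2 _ mem_low] at h3
    exact hxv h3.symm
  have hev : D (e v) = (μ + δ) • e v := by
    have h1 := LinearMap.congr_fun hew v
    rw [LinearMap.sub_apply, Module.End.mul_apply, Module.End.mul_apply, hv, map_smul,
      LinearMap.smul_apply, sub_eq_iff_eq_add] at h1
    rw [h1, add_smul, add_comm]
  have hxev : x (e v) = 0 := by
    refine hkill (μ + δ) (e v) ?_ hev β hβ x hx hxw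
    rwa [add_sub_cancel_left]
  obtain ⟨Y, hYdef⟩ : ∃ Y, Y = e * x - x * e := ⟨_, rfl⟩
  have hYperp : Y ∈ perp G L := by rw [hYdef]; exact perp_lie TG.lie hL hLG he hx
  have hYv : Y v ≠ 0 := by
    rw [hYdef, LinearMap.sub_apply, Module.End.mul_apply, Module.End.mul_apply, hxev, sub_zero]
    exact hexv
  have hYw : D * Y - Y * D = (δ - β) • Y := by
    have h3 : D * (e * x - x * e) - (e * x - x * e) * D = (D * e - e * D) * x +
        e * (D * x - x * D) - (D * x - x * D) * e - x * (D * e - e * D) := by noncomm_ring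
    rw [hYdef, h3, hew, hxw, smul_mul_assoc, smul_mul_assoc, mul_smul_comm, mul_smul_comm,
      sub_smul, smul_sub, smul_sub, neg_smul, neg_smul]
    abel
  have hperp0 : ∀ Z ∈ perp G L, Z ∈ t → Z = 0 := fun Z hZ hZt => hnd Z (htL hZt) hZ.2
  have hne0 : δ - β ≠ 0 := by
    intro h0
    rw [h0, zero_smul, sub_eq_zero] at hYw
    apply hYv
    rw [hperp0 Y hYperp (hD Y hYperp.1 hYw)]
    rfl
  have hc : pos (δ - β) := by
    refine (pos_or hne0).resolve_right fun hneg => ?_
    rw [neg_sub] at hneg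
    have h1 := hβmin (β - δ) ⟨hneg, Y, hYperp, by rw [hYw, neg_sub], v, hv, hYv⟩
    refine absurd (oc_lt.2 ?_) (not_lt.2 h1)
    rwa [sub_sub_cancel]
  -- a weight vector of positive weight in the complement
  obtain ⟨χ, y, hy, hχ, hyw, hyv⟩ : ∃ χ : t → ℂ, ∃ y ∈ perp G L, χ ⟨D, hDt⟩ = δ - β ∧
      (∀ a : t, (a : End ℂ V) * y - y * a = χ a • y) ∧ y v ≠ 0 := by
    by_contra hcon
    push Not at hcon
    let S : Submodule ℂ (End ℂ V) :=
      { carrier := {Z | Z ∈ perp G L ∧ D * Z - Z * D = (δ - β) • Z}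
        add_mem' := by
          rintro a b ⟨ha, ha'⟩ ⟨hb, hb'⟩
          refine ⟨Submodule.add_mem _ ha hb, ?_⟩
          rw [mul_add, add_mul, smul_add, ← ha', ← hb']
          abel
        zero_mem' := ⟨Submodule.zero_mem _, by rw [mul_zero, zero_mul, sub_zero, smul_zero]⟩
        smul_mem' := by
          rintro c a ⟨ha, ha'⟩
          refine ⟨Submodule.smul_mem _ c ha, ?_⟩
          rw [mul_smul_comm, smul_mul_assoc, ← smul_sub, ha', smul_comm] }
    have hS : ∀ Z ∈ S, Z v = 0 := by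
      refine wt_induction t TG.diag TG.comm S ?_ (P := fun Z => Z v = 0) rfl ?_ ?_
      · rintro a ha Z ⟨hZ, hZ'⟩
        refine ⟨perp_lie TG.lie hL hLG (htL ha) hZ, ?_⟩
        have h3 := TG.comm a ha D hDt
        have h4 : D * (a * Z - Z * a) - (a * Z - Z * a) * D =
            a * (D * Z - Z * D) - (D * Z - Z * D) * a + ((D * a - a * D) * Z -
              Z * (D * a - a * D)) := by noncomm_ring
        rw [h4, h3, sub_self, zero_mul, mul_zero, sub_zero, add_zero, hZ', mul_smul_comm,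
          smul_mul_assoc, smul_sub]
      · intro X Y _ _ hX hY
        have hX' : X v = 0 := hX
        have hY' : Y v = 0 := hY
        show (X + Y) v = 0
        rw [LinearMap.add_apply, hX', hY', add_zero]
      · intro ψ Z hZ hψ
        show Z v = 0
        by_cases hZ0 : Z = 0
        · rw [hZ0]; rfl
        refine hcon ψ Z hZ.1 ?_ hψ
        have h1 := hψ ⟨D, hDt⟩
        change D * Z - Z * D = ψ ⟨D, hDt⟩ • Z at h1
        rw [hZ.2] at h1
        exact (smul_left_injective ℂ hZ0 h1).symm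
    exact hYv (hS Y ⟨hYperp, hYw⟩)
  have hy0 : y ≠ 0 := by
    rintro rfl
    exact hyv rfl
  obtain ⟨f, hf, hfw, -, h, hht, r1, r2, r3⟩ := perp_triple TG hL hnd hLG htL hy hyw hy0
    (a0 := ⟨D, hDt⟩) (by rw [hχ]; exact hne0)
  have hfD : D * f - f * D = (-(δ - β)) • f := by
    have h1 := hfw ⟨D, hDt⟩
    rw [hχ] at h1
    exact h1
  have hyD : D * y - y * D = (δ - β) • y := by
    have h1 := hyw ⟨D, hDt⟩
    rw [hχ] at h1
    exact h1
  have hyv1 : D (y v) = (μ + (δ - β)) • y v :=
    End.mem_eigenspace_iff.1 (eig_shift hyD (End.mem_eigenspace_iff.2 hv))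
  have hyv2 : D (y (y v)) = (μ + (δ - β) + (δ - β)) • y (y v) :=
    End.mem_eigenspace_iff.1 (eig_shift hyD (End.mem_eigenspace_iff.2 hyv1))
  apply hyv
  refine no_triple (TG.diag h hht) r1 r2 r3 ?_ ?_
  · refine hkill _ _ ?_ hyv1 (δ - β) hc f hf hfD
    rwa [add_sub_cancel_left]
  · refine hkill _ _ ?_ hyv2 (δ - β) hc f hf hfD
    have h1 : μ + (δ - β) + (δ - β) - μ = (δ - β) + (δ - β) := by ring
    rw [h1]
    exact pos_add hc hc

end Pool.Agent.R931.BD
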