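import Pool.Agent.R931.BD.Core

/-!
# Subalgebras of maximal rank with the same stable subspaces
-/

set_option autoImplicit false

namespace Pool.Agent.R931.BD

open Module Polynomial Pool.Agent.Y114.RM Pool.Agent.Y212.RM

variable {V : Type} [AddCommGroup V] [Module ℂ V] [FiniteDimensional ℂ V]
  {G L t : Submodule ℂ (End ℂ V)}

/-- the orthogonal complement of `L` in `G` -/
def perp (G L : Submodule ℂ (End ℂ V)) : Submodule ℂ (End ℂ V) where
  carrier := {X | X ∈ G ∧ ∀ Y ∈ L, LinearMap.trace ℂ V (X * Y) = 0}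
  add_mem' := by
    rintro a b ⟨ha, ha'⟩ ⟨hb, hb'⟩
    refine ⟨G.add_mem ha hb, fun Y hY => ?_⟩
    rw [add_mul, LinearMap.map_add, ha' Y hY, hb' Y hY, add_zero]
  zero_mem' := ⟨G.zero_mem, fun Y _ => by rw [zero_mul, LinearMap.map_zero]⟩
  smul_mem' := by
    rintro c a ⟨ha, ha'⟩
    refine ⟨G.smul_mem c ha, fun Y hY => ?_⟩
    rw [smul_mul_assoc, LinearMap.map_smul, ha' Y hY, smul_zero]

theorem mem_perp {X : End ℂ V} :
    X ∈ perp G L ↔ X ∈ G ∧ ∀ Y ∈ L, LinearMap.trace ℂ V (X * Y) = 0 := Iff.rfl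

/-- the complement is stable under `L` -/
theorem perp_lie (hG : IsLie G) (hL : IsLie L) (hLG : L ≤ G) {Y X : End ℂ V} (hY : Y ∈ L)
    (hX : X ∈ perp G L) : Y * X - X * Y ∈ perp G L := by
  refine ⟨hG Y (hLG hY) X hX.1, fun Z hZ => ?_⟩
  have h1 : (Y * X - X * Y) * Z = (Y * (X * Z) - (X * Z) * Y) - X * (Y * Z - Z * Y) := by
    noncomm_ring
  rw [h1, LinearMap.map_sub, trace_lie_zero, hX.2 _ (hL Y hY Z hZ), sub_zero]

/-- `G` is the sum of `L` and the complement -/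
theorem perp_split (hnd : NonDeg L) (hLG : L ≤ G) {X : End ℂ V} (hX : X ∈ G) :
    ∃ Y ∈ L, X - Y ∈ perp G L := by
  let B : L →ₗ[ℂ] Module.Dual ℂ L :=
    LinearMap.mk₂ ℂ (fun a b => LinearMap.trace ℂ V ((a : End ℂ V) * b))
      (fun a b c => by
        show LinearMap.trace ℂ V (((a : End ℂ V) + b) * c) = _
        rw [add_mul, LinearMap.map_add])
      (fun c a b => by
        show LinearMap.trace ℂ V ((c • (a : End ℂ V)) * b) = _
        rw [smul_mul_assoc, LinearMap.map_smul])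
      (fun a b c => by
        show LinearMap.trace ℂ V ((a : End ℂ V) * (b + c)) = _
        rw [mul_add, LinearMap.map_add])
      (fun c a b => by
        show LinearMap.trace ℂ V ((a : End ℂ V) * (c • b)) = _
        rw [mul_smul_comm, LinearMap.map_smul])
  have hinj : Function.Injective B := by
    rw [← LinearMap.ker_eq_bot, LinearMap.ker_eq_bot']
    intro a ha
    exact Subtype.ext (hnd a a.2 fun Y hY => LinearMap.congr_fun ha ⟨Y, hY⟩)
  have hsurj : Function.Surjective B :=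
    (LinearMap.injective_iff_surjective_of_finrank_eq_finrank
      (Subspace.dual_finrank_eq (K := ℂ) (V := L)).symm).1 hinj
  let φ : Module.Dual ℂ L :=
    (LinearMap.trace ℂ V) ∘ₗ (LinearMap.mulLeft ℂ X) ∘ₗ L.subtype
  obtain ⟨Y, hY⟩ := hsurj φ
  refine ⟨Y, Y.2, G.sub_mem hX (hLG Y.2), fun Z hZ => ?_⟩
  have h1 : LinearMap.trace ℂ V ((Y : End ℂ V) * Z) = LinearMap.trace ℂ V (X * Z) :=
    LinearMap.congr_fun hY ⟨Z, hZ⟩
  rw [sub_mul, LinearMap.map_sub, h1, sub_self]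

/-- the trace form is nondegenerate on the complement -/
theorem perp_nondeg (hG : NonDeg G) (hnd : NonDeg L) (hLG : L ≤ G) {X : End ℂ V}
    (hX : X ∈ perp G L) (hX0 : ∀ Y ∈ perp G L, LinearMap.trace ℂ V (X * Y) = 0) : X = 0 := by
  refine hG X hX.1 fun Z hZ => ?_
  obtain ⟨Y, hY, hZY⟩ := perp_split hnd hLG hZ
  have h1 : Z = Y + (Z - Y) := by abel
  rw [h1, mul_add, LinearMap.map_add, hX.2 Y hY, hX0 _ hZY, add_zero]

/-- the `sl₂`-triple of a weight vector of the complement -/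
theorem perp_triple (TG : Tor G t) (hL : IsLie L) (hnd : NonDeg L) (hLG : L ≤ G) (htL : t ≤ L)
    {χ : t → ℂ} {e : End ℂ V} (he : e ∈ perp G L)
    (hwt : ∀ a : t, (a : End ℂ V) * e - e * a = χ a • e) (he0 : e ≠ 0) {a0 : t}
    (ha0 : χ a0 ≠ 0) :
    ∃ f ∈ perp G L, (∀ a : t, (a : End ℂ V) * f - f * a = (-χ a) • f) ∧ f ≠ 0 ∧
      ∃ h ∈ t, e * f - f * e = h ∧ h * e - e * h = 2 • e ∧ h * f - f * h = -(2 • f) := by
  obtain ⟨f, hf, hfw, htr, h, hht, -, hef, hhe, hhf⟩ := TG.exists_triple he.1 hwt he0 ha0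
  have hf0 : f ≠ 0 := by
    rintro rfl
    rw [mul_zero, LinearMap.map_zero] at htr
    exact htr rfl
  obtain ⟨z, hz, hzw, hz0⟩ : ∃ z ∈ perp G L,
      (∀ a : t, (a : End ℂ V) * z - z * a = (-χ a) • z) ∧ z ≠ 0 := by
    by_contra hcon
    push Not at hcon
    apply he0
    refine perp_nondeg TG.nd hnd hLG he ?_
    refine wt_induction t TG.diag TG.comm (perp G L)
      (fun a ha X hX => perp_lie TG.lie hL hLG (htL ha) hX)
      (P := fun Y => LinearMap.trace ℂ V (e * Y) = 0) ?_ ?_ ?_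
    · show LinearMap.trace ℂ V (e * 0) = 0
      rw [mul_zero, LinearMap.map_zero]
    · intro X Y _ _ hX hY
      show LinearMap.trace ℂ V (e * (X + Y)) = 0
      have hX' : LinearMap.trace ℂ V (e * X) = 0 := hX
      have hY' : LinearMap.trace ℂ V (e * Y) = 0 := hY
      rw [mul_add, LinearMap.map_add, hX', hY', add_zero]
    · intro ψ X hX hψ
      show LinearMap.trace ℂ V (e * X) = 0
      by_cases h : ∃ a : t, χ a + ψ a ≠ 0
      · obtain ⟨a, ha⟩ := h
        exact trace_wt (hwt a) (hψ a) ha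
      · push Not at h
        have h1 := hcon X hX fun a => by rw [hψ a, ← eq_neg_of_add_eq_zero_right (h a)]
        rw [h1, mul_zero, LinearMap.map_zero]
  obtain ⟨c, hc⟩ := TG.mem_span hz.1 hf hzw hfw hz0 (a0 := a0) (neg_ne_zero.2 ha0)
  exact ⟨f, by rw [hc]; exact Submodule.smul_mem _ c hz, hfw, hf0, h, hht, hef, hhe, hhf⟩

/-- The diagonalizable element `D` has a positive and a negative weight in the complement. -/
theorem exists_neg (TG : Tor G t) (hL : IsLie L) (hnd : NonDeg L) (hLG : L ≤ G) (htL : t ≤ L)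
    {D : End ℂ V} (hDt : D ∈ t) (hD : ∀ X ∈ G, D * X = X * D → X ∈ t) (hne : perp G L ≠ ⊥) :
    ∃ c, pos c ∧ ∃ x ∈ perp G L, D * x - x * D = (-c) • x ∧ x ≠ 0 := by
  obtain ⟨χ, y, hy, hyw, hy0⟩ : ∃ χ : t → ℂ, ∃ y ∈ perp G L,
      (∀ a : t, (a : End ℂ V) * y - y * a = χ a • y) ∧ y ≠ 0 := by
    by_contra hcon
    push Not at hcon
    apply hne
    rw [eq_bot_iff]
    intro X hX
    rw [Submodule.mem_bot]
    exact wt_induction t TG.diag TG.comm (perp G L)
      (fun a ha X hX => perp_lie TG.lie hL hLG (htL ha) hX) (P := fun Y => Y = 0) rfl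
      (fun X Y _ _ hX hY => by
        have hX' : X = 0 := hX
        have hY' : Y = 0 := hY
        show X + Y = 0
        rw [hX', hY', add_zero]) (fun χ X hX hw => hcon χ X hX hw) X hX
  have hc0 : χ ⟨D, hDt⟩ ≠ 0 := by
    intro h0
    have h1 := hyw ⟨D, hDt⟩
    rw [h0, zero_smul] at h1
    have h2 : y ∈ t := hD y hy.1 (sub_eq_zero.1 h1)
    exact hy0 (hnd y (htL h2) hy.2)
  rcases pos_or hc0 with h | h
  · obtain ⟨f, hf, hfw, hf0, -⟩ := perp_triple TG hL hnd hLG htL hy hyw hy0 hc0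
    exact ⟨χ ⟨D, hDt⟩, h, f, hf, hfw ⟨D, hDt⟩, hf0⟩
  · refine ⟨-χ ⟨D, hDt⟩, h, y, hy, ?_, hy0⟩
    rw [neg_neg]
    exact hyw ⟨D, hDt⟩

end Pool.Agent.R931.BD
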