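import Pool.Agent.R931.BD.BlockEndo

/-!
# The Mumford-Tate conjecture for direct sums
-/

set_option autoImplicit false
set_option linter.unusedSectionVars false
set_option linter.unusedVariables false

namespace Pool.Agent.R931.BD

open NumberField IsDedekindDomain Module Polynomial TensorProduct Pool.Agent.TH118.SG
  Pool.Agent.Y114.MU Pool.Agent.Y114.TF Pool.Agent.Y114.GF Pool.Agent.H204R3.GP
  Pool.Agent.Y114.RM Pool.Agent.R931.IR

/-- The summands of a semisimple representation are semisimple. -/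
theorem semisimple_part {k : Type} [Field k] {ι : Type} [DecidableEq ι]
    {V : ι → Type} [∀ i, AddCommGroup (V i)] [∀ i, Module k (V i)] {Γ : Type} [Group Γ]
    (ρ : ∀ i, Representation k Γ (V i)) (h : FiniteIndexSemisimple (sumRep ρ)) (i : ι) :
    FiniteIndexSemisimple (ρ i) := by
  intro Δ hΔ W hW
  obtain ⟨U, hU, hc⟩ := h Δ hΔ (W.comap (LinearMap.proj i)) fun s hs u hu => hW s hs (u i) hu
  refine ⟨U.map (LinearMap.proj i), ?_, ?_⟩
  · rintro s hs _ ⟨u, hu, rfl⟩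
    exact ⟨sumRep ρ s u, hU s hs u hu, rfl⟩
  · constructor
    · rw [Submodule.disjoint_def]
      rintro _ hx ⟨u, hu, rfl⟩
      have h1 : u = 0 := (Submodule.disjoint_def.1 hc.disjoint) u hx hu
      rw [h1, map_zero]
    · rw [codisjoint_iff, eq_top_iff]
      intro z _
      have h1 : (Pi.single i z : ∀ i, V i) ∈ W.comap (LinearMap.proj i) ⊔ U := by
        rw [hc.sup_eq_top]
        trivial
      obtain ⟨a, ha, b, hb, hab⟩ := Submodule.mem_sup.1 h1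
      refine Submodule.mem_sup.2 ⟨a i, ha, b i, ⟨b, hb, rfl⟩, ?_⟩
      have h2 := congrFun hab i
      rw [Pi.single_eq_same] at h2
      exact h2

/-- The Mumford-Tate conjecture (in the form of a statement on tensors): the representation is
semisimple under all subgroups of finite index, and the Tate tensors are the tensors killed by
`𝔤`. -/
structure IsFull {k : Type} [Field k] {V : Type} [AddCommGroup V] [Module k V] {Γ : Type} [Group Γ]
    (ρ : Representation k Γ V) (𝔤 : Submodule k (End k V)) : Prop where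
  semisimple : FiniteIndexSemisimple ρ
  tate : TateIsKilledBy ρ 𝔤

section final

variable {Γ : Type} [Group Γ] [TopologicalSpace Γ] [IsTopologicalGroup Γ] [CompactSpace Γ]

/-- The Mumford-Tate conjecture for the direct sum. -/
def MumfordTate {ι : Type} {n : ι → ℕ} {ℓ : ℕ} [Fact ℓ.Prime]
    (ρ : Reps Γ n ℓ) (𝔤 : EndSpace n ℓ) : Prop := IsFull (sumRep ρ) 𝔤

/-- The Mumford-Tate conjecture for the `i`-th summand. -/
def MumfordTatePart {ι : Type} [DecidableEq ι] {n : ι → ℕ} {ℓ : ℕ} [Fact ℓ.Prime]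
    (ρ : Reps Γ n ℓ) (𝔤 : EndSpace n ℓ) (i : ι) : Prop :=
  IsFull (ρ i) (imageIn (k := ℚ_[ℓ]) (V := fun i => Fin (n i) → ℚ_[ℓ]) 𝔤 i)

theorem main_full (s : Gal(AlgebraicClosure ℚ/ℚ) →* Γ) (hs : Continuous s)
    {ι : Type} [Fintype ι] [DecidableEq ι] {n : ι → ℕ} (w : ι → ℤ) (c : ℕ)
    (S : Set (HeightOneSpectrum (𝓞 ℚ))) (hS : S.Finite)
    (P : HeightOneSpectrum (𝓞 ℚ) → ι → ℚ[X])
    (ℓ₀ : ℕ) [hℓ₀ : Fact ℓ₀.Prime] (ρ₀ : Reps Γ n ℓ₀) (hρ₀ : Conts ρ₀)
    (hP₀ : ∀ v ∉ S, ¬ Above v ℓ₀ → ∀ i, GoodReduction (restrictTo ρ₀ s) i (w i) v (P v i) ∧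
      IntegralRoots c v (P v i))
    (r : ℕ) (hr : ∃ σ, IndependentEigenvalues ρ₀ (s σ) r)
    (ℓ : ℕ) [hℓ : Fact ℓ.Prime] (ρ : Reps Γ n ℓ) (hρ : Conts ρ)
    (hP : ∀ v ∉ S, ¬ Above v ℓ → ∀ i, GoodReduction (restrictTo ρ s) i (w i) v (P v i))
    (𝔤 : EndSpace n ℓ) (h𝔤 : Motivic ρ 𝔤) (hrank : RankLE 𝔤 r) :
    (∀ i, MumfordTatePart ρ 𝔤 i) ↔ MumfordTate ρ 𝔤 := by
  constructor
  · intro hend
    obtain ⟨L, alg, t, hss, hLT, hLie, hLG, hND, -, -, htL, hdiag, hcomm, hcen⟩ :=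
      tuple s hs w c S hS P ℓ₀ ρ₀ hρ₀ hP₀ r hr ℓ ρ hρ hP 𝔤 h𝔤 hrank
    have hfull : L = 𝔤 :=
      full_of_block_endos ρ hρ 𝔤 h𝔤 alg hss hLT hLie hLG hND htL hdiag hcomm hcen
        fun i => endos_of_full (ρ i) _ (hend i).tate
    exact ⟨hss, fun m φ =>
      ⟨fun hφ X hX => (hLT X).1 (hfull ▸ hX) m φ hφ, IsMotivic.tate h𝔤 m φ⟩⟩
  · exact fun h i => ⟨semisimple_part ρ h.semisimple i, tate_part ρ 𝔤 h𝔤.parts h.tate i⟩

end final

end Pool.Agent.R931.BD
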