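import Pool.Agent.R931.BD.Max

/-!
# A lemma on `sl₂`-triples
-/

set_option autoImplicit false

namespace Pool.Agent.R931.BD

open Module Polynomial

variable {V : Type} [AddCommGroup V] [Module ℂ V] [FiniteDimensional ℂ V]

theorem eig_shift {h y : End ℂ V} {c a : ℂ} (hy : h * y - y * h = c • y) {v : V}
    (hv : v ∈ End.eigenspace h a) : y v ∈ End.eigenspace h (a + c) := by
  rw [End.mem_eigenspace_iff] at hv ⊢
  have h1 := LinearMap.congr_fun hy v
  rw [LinearMap.sub_apply, Module.End.mul_apply, Module.End.mul_apply, hv, map_smul,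
    LinearMap.smul_apply, sub_eq_iff_eq_add] at h1
  rw [h1, add_smul, add_comm]

theorem no_triple {h y f : End ℂ V} (hd : ⨆ μ, End.eigenspace h μ = ⊤) (r1 : y * f - f * y = h)
    (r2 : h * y - y * h = 2 • y) (r3 : h * f - f * h = -(2 • f)) {v : V} (h1 : f (y v) = 0)
    (h2 : f (y (y v)) = 0) : y v = 0 := by
  by_contra hne
  have r2' : h * y - y * h = (2 : ℂ) • y := by rw [r2, ← ofNat_smul_eq_nsmul ℂ]
  have r3' : h * f - f * h = (-2 : ℂ) • f := by rw [r3, ← ofNat_smul_eq_nsmul ℂ, neg_smul]
  have hw : h (y v) = 0 := by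
    rw [← r1, LinearMap.sub_apply, Module.End.mul_apply, Module.End.mul_apply, h1, h2, map_zero,
      sub_zero]
  -- an eigenvector
  obtain ⟨v', hv', hyv'⟩ : ∃ v' ∈ End.eigenspace h (-2 : ℂ), y v' = y v := by
    have hv : v ∈ End.eigenspace h (-2 : ℂ) ⊔ ⨆ (a : ℂ) (_ : a ≠ -2), End.eigenspace h a := by
      have h3 : (⊤ : Submodule ℂ V) ≤
          End.eigenspace h (-2 : ℂ) ⊔ ⨆ (a : ℂ) (_ : a ≠ -2), End.eigenspace h a := by
        rw [← hd]
        refine iSup_le fun a => ?_
        by_cases ha : a = -2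
        · rw [ha]
          exact le_sup_left
        · exact le_sup_of_le_right (le_iSup₂_of_le a ha le_rfl)
      exact h3 Submodule.mem_top
    obtain ⟨v1, hv1, v2, hv2, rfl⟩ := Submodule.mem_sup.1 hv
    refine ⟨v1, hv1, ?_⟩
    have h3 : y v2 ∈ ⨆ (b : ℂ) (_ : b ≠ 0), End.eigenspace h b := by
      have h4 : (⨆ (a : ℂ) (_ : a ≠ -2), End.eigenspace h a) ≤
          (⨆ (b : ℂ) (_ : b ≠ 0), End.eigenspace h b).comap y := by
        refine iSup₂_le fun a ha x hx => ?_
        rw [Submodule.mem_comap]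
        refine (le_iSup₂_of_le (a + 2) ?_ le_rfl : End.eigenspace h (a + 2) ≤ _) (eig_shift r2' hx)
        intro h5
        exact ha (eq_neg_of_add_eq_zero_left h5)
      exact h4 hv2
    have h4 : y v1 ∈ End.eigenspace h (0 : ℂ) := by
      have h5 := eig_shift r2' hv1
      rwa [neg_add_cancel] at h5
    have h5 : y v2 ∈ End.eigenspace h (0 : ℂ) := by
      have h6 : y (v1 + v2) ∈ End.eigenspace h (0 : ℂ) := by
        rw [End.mem_eigenspace_iff, hw, zero_smul]
      rw [map_add] at h6
      exact (Submodule.add_mem_iff_right _ h4).1 h6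
    have h6 := (End.eigenspaces_iSupIndep h (0 : ℂ)).le_bot ⟨h5, h3⟩
    rw [Submodule.mem_bot] at h6
    rw [map_add, h6, add_zero]
  have hv0 : v' ≠ 0 := by
    rintro rfl
    rw [map_zero] at hyv'
    exact hne hyv'.symm
  have hpow : ∀ j : ℕ, (f ^ j) v' ∈ End.eigenspace h (-2 - 2 * (j : ℂ)) := by
    intro j
    induction j with
    | zero =>
      rw [pow_zero, Module.End.one_apply]
      simpa using hv'
    | succ j ih =>
      rw [pow_succ', Module.End.mul_apply]
      have h3 := eig_shift r3' ih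
      have h4 : (-2 - 2 * (j : ℂ)) + -2 = -2 - 2 * ((j + 1 : ℕ) : ℂ) := by push_cast; ring
      rwa [h4] at h3
  obtain ⟨j, hj⟩ : ∃ j : ℕ, (f ^ j) v' = 0 := by
    by_contra hcon
    push Not at hcon
    have h3 : Set.Infinite {c | h.HasEigenvalue c} := by
      refine Set.infinite_of_injective_forall_mem (f := fun j : ℕ => (-2 - 2 * (j : ℂ))) ?_ ?_
      · intro a b hab
        have h4 : (a : ℂ) = b := by
          have h5 : -2 - 2 * (a : ℂ) = -2 - 2 * (b : ℂ) := hab
          linear_combination (-1 / 2 : ℂ) * h5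
        exact_mod_cast h4
      · intro j
        exact End.hasEigenvalue_of_hasEigenvector ⟨hpow j, hcon j⟩
    exact h3 (End.finite_hasEigenvalue h)
  have hchain : ∀ j : ℕ, y ((f ^ (j + 1)) v') = (-(((j : ℂ) + 1) * (j + 2))) • (f ^ j) v' := by
    have hyf : ∀ x, y (f x) = h x + f (y x) := by
      intro x
      have h3 := LinearMap.congr_fun r1 x
      rw [LinearMap.sub_apply, Module.End.mul_apply, Module.End.mul_apply] at h3
      rw [← h3, sub_add_cancel]
    intro j
    induction j with
    | zero =>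
      rw [zero_add, pow_one, pow_zero, Module.End.one_apply, hyf, hyv', h1, add_zero,
        End.mem_eigenspace_iff.1 hv']
      congr 1
      push_cast
      ring
    | succ j ih =>
      rw [pow_succ' f (j + 1), Module.End.mul_apply, hyf, ih, map_smul,
        End.mem_eigenspace_iff.1 (hpow (j + 1)), ← Module.End.mul_apply, ← pow_succ', ← add_smul]
      congr 1
      push_cast
      ring
  induction j with
  | zero => exact hv0 hj
  | succ j ih =>
    apply ih
    have h3 := hchain j
    rw [hj, map_zero] at h3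
    have h4 : (-(((j : ℂ) + 1) * (j + 2))) ≠ 0 := by
      rw [neg_ne_zero]
      refine mul_ne_zero ?_ ?_
      · exact_mod_cast Nat.succ_ne_zero j
      · exact_mod_cast Nat.succ_ne_zero (j + 1)
    exact (smul_eq_zero.1 h3.symm).resolve_left h4

end Pool.Agent.R931.BD
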